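import Pool.Agent.Y957.MC.Spec3
import Pool.Agent.Y614.MC.Expg

/-!
# Project MC (helper957): power saving for exponentials and for multiples of `q` (S_PSE, S_PSQ)
-/

set_option autoImplicit false

namespace Pool.Agent.Y220.MC.PS

open Finset Filter
open Pool.Agent.H469R2.NK (e norm_e e_add conj_e Cq Cq_pos harm_le kusmin_landau_anti norm_sum_neg)
open Pool.Agent.TH915.PW (Hy)
open Pool.Agent.Y957.MC
open Pool.Agent.Y614.MC (exp_bound' exists_root log_pow_le)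

/-- the derivatives of `log x + β x` -/
noncomputable def lg (β : ℝ) : ℕ → ℝ → ℝ
  | 0, x => Real.log x + β * x
  | 1, x => x⁻¹ + β
  | (m + 2), x => (-1) ^ (m + 1) * (m + 1).factorial / x ^ (m + 2)

theorem lg_der (β : ℝ) (m : ℕ) {x : ℝ} (hx : 0 < x) : HasDerivAt (lg β m) (lg β (m + 1) x) x := by
  match m with
  | 0 =>
    have h1 : HasDerivAt (fun y : ℝ => β * y) β x := by
      simpa using (hasDerivAt_id x).const_mul β
    exact (Real.hasDerivAt_log hx.ne').add h1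
  | 1 =>
    have h1 := (hasDerivAt_inv hx.ne').add_const β
    refine h1.congr_deriv ?_
    change _ = (-1) ^ (0 + 1) * ((0 + 1).factorial : ℝ) / x ^ (0 + 2)
    simp
    rw [neg_div, one_div]
  | (m + 2) =>
    have h1 : HasDerivAt (fun y : ℝ => (y ^ (m + 2))⁻¹) (-(((m + 2 : ℕ) : ℝ) * x ^ (m + 1)) / (x ^ (m + 2)) ^ 2) x := by
      have h2 := hasDerivAt_pow (m + 2) x
      rw [show m + 2 - 1 = m + 1 by omega] at h2
      exact h2.fun_inv (pow_ne_zero _ hx.ne')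
    have h3 := h1.const_mul ((-1) ^ (m + 1) * ((m + 1).factorial : ℝ))
    refine (h3.congr_deriv ?_).congr_of_eventuallyEq (Eventually.of_forall fun y => ?_)
    · change _ = (-1) ^ (m + 1 + 1) * ((m + 1 + 1).factorial : ℝ) / x ^ (m + 1 + 2)
      rw [Nat.factorial_succ (m + 1)]
      push_cast
      have hx' := hx.ne'
      field_simp
      ring
    · change (-1) ^ (m + 1) * ((m + 1).factorial : ℝ) / y ^ (m + 2) = _
      rw [div_eq_mul_inv]

theorem lg_hy (β : ℝ) (Q : ℕ) {ε M : ℝ} (hε : 0 < ε) (hM : 0 < M) :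
    Hy (2 * Q + 2) (ε * M) (2 * M)
      ((((2 * Q + 2).factorial : ℝ) / 2 ^ (2 * Q + 2 + 1)) / M ^ (2 * Q + 2 + 1))
      ((((2 * Q + 2).factorial : ℝ) / ε ^ (2 * Q + 2 + 1)) / M ^ (2 * Q + 2 + 1)) (lg β) := by
  have hεM : 0 < ε * M := by positivity
  have h1 : ∀ t : ℝ, lg β (2 * Q + 2 + 1) t = ((2 * Q + 2).factorial : ℝ) / t ^ (2 * Q + 2 + 1) := by
    intro t
    change (-1) ^ (2 * Q + 1 + 1) * ((2 * Q + 1 + 1).factorial : ℝ) / t ^ (2 * Q + 1 + 2) = _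
    rw [show 2 * Q + 1 + 1 = 2 * (Q + 1) by ring, pow_mul]
    norm_num
    rw [show 2 * (Q + 1) = 2 * Q + 2 by ring]
  refine ⟨?_, ?_, ?_, ?_⟩
  · intro m _ t ht
    exact lg_der β m (lt_of_lt_of_le hεM ht.1)
  · intro t ht
    have ht0 : 0 < t := lt_of_lt_of_le hεM ht.1
    rw [h1, div_div, ← mul_pow]
    have := ht.2
    gcongr
  · intro t ht
    have ht0 : 0 < t := lt_of_lt_of_le hεM ht.1
    rw [h1, div_div, ← mul_pow]
    have := ht.1
    gcongr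
  · intro t ht
    have ht0 : 0 < t := lt_of_lt_of_le hεM ht.1
    change (-1) ^ (2 * Q + 2 + 1) * ((2 * Q + 2 + 1).factorial : ℝ) / t ^ (2 * Q + 2 + 2) ≤ 0
    rw [pow_succ, show 2 * Q + 2 = 2 * (Q + 1) by ring, pow_mul]
    norm_num
    rw [neg_div]
    have : 0 ≤ ((2 * (Q + 1) + 1).factorial : ℝ) / t ^ (2 * (Q + 1) + 2) := by positivity
    linarith

/-- the regime of high frequencies -/
theorem core {k Q : ℕ} (hk : k = 2 * Q + 2) {ε ak bk : ℝ} (hε : 0 < ε) (hε1 : ε < 1) (hak' : 0 < ak)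
    (hbk' : 0 < bk) (N : ℕ) (φ : ℕ → ℝ → ℝ)
    (hyk : Hy k (ε * N) (2 * N) (ak / (N : ℝ) ^ (k + 1)) (bk / (N : ℝ) ^ (k + 1)) φ) (κ : ℝ) (hκ0 : 0 < κ)
    (hκQ : κ ≤ (N : ℝ) ^ Q) (hκN : Real.pi * N ≤ bk * κ) (hN3 : bk ≤ N * Real.pi) (hN4 : (1 : ℝ) ≤ N) :
    ‖∑ n ∈ range (N - ⌊ε * N⌋₊), e (κ / (2 * Real.pi) * φ 0 (((⌊ε * N⌋₊ : ℝ) + 1) + (n : ℝ)))‖ ≤
      (Cq k * (2 / Real.sqrt (min 1 (Real.pi / bk)) + 4 * 2 ^ k * (bk / ak) * (1 + 2 * k) ^ k)) ^
        ((1 : ℝ) / 2 ^ k) * (N : ℝ) ^ (1 - 1 / (2 * 2 ^ k) : ℝ) := by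
  have hk1 : 1 ≤ k := by omega
  have hπ := Real.pi_pos
  set c1 : ℝ := min 1 (Real.pi / bk) with hc1
  have hc1' : 0 < c1 := by rw [hc1]; positivity
  have hc11 : c1 ≤ 1 := min_le_left _ _
  have hc12 : c1 ≤ Real.pi / bk := min_le_right _ _
  set K : ℝ := Cq k * (2 / Real.sqrt c1 + 4 * 2 ^ k * (bk / ak) * (1 + 2 * k) ^ k) with hK
  have hCq := Cq_pos k
  have hK0 : 0 < K := by rw [hK]; positivity
  set δ : ℝ := 1 / (2 * 2 ^ k) with hδ
  have hδ0 : 0 < δ := by rw [hδ]; positivity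
  have hN4' : 1 ≤ N := by exact_mod_cast hN4
  have hNpos : (0 : ℝ) < N := by linarith
  set a : ℕ := ⌊ε * N⌋₊ with ha
  have haN : a ≤ N := by
    have h1 : (a : ℝ) ≤ ε * N := Nat.floor_le (by positivity)
    have h2 : (a : ℝ) ≤ N := by nlinarith
    exact_mod_cast h2
  have hua : ε * N ≤ (a : ℝ) + 1 := (Nat.lt_floor_add_one _).le
  have haL : (a : ℝ) + 1 + ((N - a : ℕ) : ℝ) ≤ 2 * N := by
    rw [Nat.cast_sub haN]
    linarith
  have hLN : N - a ≤ N := Nat.sub_le _ _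
  set θ : ℝ := κ / (2 * Real.pi) with hθ
  have hθ0 : 0 < θ := by rw [hθ]; positivity
  have hKp : 0 ≤ K ^ ((1 : ℝ) / 2 ^ k) := by positivity
  set R : ℝ := Real.pi * (N : ℝ) ^ (k + 1) / (bk * κ) with hR
  have hRlow : Real.pi / bk * (N : ℝ) ^ (Q + 3) ≤ R := by
    rw [hR, div_mul_eq_mul_div, div_le_div_iff₀ hbk' (by positivity)]
    have e1 : (N : ℝ) ^ (k + 1) = (N : ℝ) ^ (Q + 3) * (N : ℝ) ^ Q := by
      rw [← pow_add]
      congr 1
      omega
    rw [e1]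
    calc Real.pi * (N : ℝ) ^ (Q + 3) * (bk * κ) ≤
          Real.pi * (N : ℝ) ^ (Q + 3) * (bk * (N : ℝ) ^ Q) := by gcongr
      _ = _ := by ring
  have hR1 : 1 ≤ R := by
    refine le_trans ?_ hRlow
    have h1 : (1 : ℝ) ≤ (N : ℝ) ^ (Q + 2) := one_le_pow₀ hN4
    rw [show Q + 3 = (Q + 2) + 1 by ring, pow_succ, div_mul_eq_mul_div, le_div_iff₀ hbk', one_mul]
    calc bk ≤ N * Real.pi := hN3
      _ = 1 * (N * Real.pi) := (one_mul _).symm
      _ ≤ (N : ℝ) ^ (Q + 2) * (N * Real.pi) := by gcongr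
      _ = _ := by ring
  have hRup : R ≤ (N : ℝ) ^ k := by
    rw [hR, div_le_iff₀ (by positivity), pow_succ]
    calc Real.pi * ((N : ℝ) ^ k * N) = (N : ℝ) ^ k * (Real.pi * N) := by ring
      _ ≤ (N : ℝ) ^ k * (bk * κ) := by gcongr
  obtain ⟨H, hH1, hH2, hH3⟩ := exists_root k hk1 R hR1
  have hHN : H ≤ N := by
    have h1 : (H : ℝ) ^ k ≤ (N : ℝ) ^ k := hH2.trans hRup
    have h2 : (H : ℝ) ≤ N := le_of_pow_le_pow_left₀ (by omega) hNpos.le h1
    exact_mod_cast h2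
  have hH1' : (1 : ℝ) ≤ H := by exact_mod_cast hH1
  have hHN' : (H : ℝ) ≤ N := by exact_mod_cast hHN
  have hcond : 2 * (θ * (bk / (N : ℝ) ^ (k + 1) * (H : ℝ) ^ k)) ≤ 1 := by
    calc 2 * (θ * (bk / (N : ℝ) ^ (k + 1) * (H : ℝ) ^ k)) ≤
          2 * (θ * (bk / (N : ℝ) ^ (k + 1) * R)) := by gcongr
      _ = 1 := by
          rw [hθ, hR]
          field_simp
  have hb := exp_bound' (div_pos hak' (by positivity)) (div_pos hbk' (by positivity)).le θ hθ0
    hyk ((a : ℝ) + 1) N (N - a) H hN4' hLN hua haL hH1 hHN hcond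
  -- the first term
  have h4H : c1 * N ≤ (2 * (H : ℝ)) ^ 2 := by
    have h1 : (c1 * N) ^ (Q + 1) ≤ ((2 * (H : ℝ)) ^ 2) ^ (Q + 1) := by
      rw [← pow_mul, show 2 * (Q + 1) = k by omega]
      refine le_trans ?_ hH3
      refine le_trans ?_ hRlow
      rw [mul_pow]
      have e1 : c1 ^ (Q + 1) ≤ Real.pi / bk := by
        refine le_trans ?_ hc12
        calc c1 ^ (Q + 1) ≤ c1 ^ 1 := pow_le_pow_of_le_one hc1'.le hc11 (by omega)
          _ = c1 := pow_one _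
      have e2 : (N : ℝ) ^ (Q + 1) ≤ (N : ℝ) ^ (Q + 3) := pow_le_pow_right₀ hN4 (by omega)
      gcongr
    exact le_of_pow_le_pow_left₀ (by omega) (by positivity) h1
  have hterm1 : 1 / (H : ℝ) ≤ 2 / Real.sqrt c1 * (N : ℝ) ^ (-(1 / 2) : ℝ) := by
    have h1 : Real.sqrt (c1 * N) ≤ 2 * H := by
      rw [← Real.sqrt_sq (by positivity : (0 : ℝ) ≤ 2 * H)]
      exact Real.sqrt_le_sqrt h4H
    rw [Real.sqrt_mul hc1'.le] at h1
    have h2 : 0 < Real.sqrt c1 := Real.sqrt_pos.2 hc1'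
    have h3 : 0 < Real.sqrt (N : ℝ) := Real.sqrt_pos.2 hNpos
    rw [Real.rpow_neg hNpos.le, ← Real.sqrt_eq_rpow, ← div_eq_mul_inv, div_div,
      div_le_div_iff₀ (by positivity) (by positivity), one_mul]
    exact h1
  -- the second term
  have hterm2 : 2 / (θ * (ak / (N : ℝ) ^ (k + 1))) / N * ((∑ l ∈ Ico 1 H, (1 : ℝ) / l) / H) ^ k ≤
      4 * 2 ^ k * (bk / ak) * (1 + 2 * k) ^ k * (N : ℝ) ^ (-(1 / 2) : ℝ) := by
    have hs0 : 0 ≤ ∑ l ∈ Ico 1 H, (1 : ℝ) / l := sum_nonneg fun _ _ => by positivity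
    have hlog : ∑ l ∈ Ico 1 H, (1 : ℝ) / l ≤ 1 + Real.log N := by
      refine (harm_le H).trans ?_
      have := Real.log_le_log (by positivity) hHN'
      linarith
    have hRpos : 0 < R := by linarith
    have h1 : ((∑ l ∈ Ico 1 H, (1 : ℝ) / l) / H) ^ k ≤ (1 + Real.log N) ^ k * 2 ^ k / R := by
      rw [div_pow, div_le_div_iff₀ (by positivity) hRpos]
      calc (∑ l ∈ Ico 1 H, (1 : ℝ) / l) ^ k * R ≤ (1 + Real.log N) ^ k * (2 * (H : ℝ)) ^ k := by
            gcongr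
        _ = _ := by rw [mul_pow]; ring
    have h2 := log_pow_le k hk1 N hN4
    have e3 : (N : ℝ) ^ (-(1 / 2) : ℝ) = (N : ℝ) ^ (1 / 2 : ℝ) / N := by
      rw [← Real.rpow_sub_one hNpos.ne']
      norm_num
    calc 2 / (θ * (ak / (N : ℝ) ^ (k + 1))) / N * ((∑ l ∈ Ico 1 H, (1 : ℝ) / l) / H) ^ k ≤
          2 / (θ * (ak / (N : ℝ) ^ (k + 1))) / N *
            (((1 + 2 * k) ^ k * (N : ℝ) ^ (1 / 2 : ℝ)) * 2 ^ k / R) := by
          gcongr
          refine h1.trans ?_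
          gcongr
      _ = _ := by
          rw [hθ, hR, e3]
          field_simp
          ring
  have hfin : (‖∑ n ∈ range (N - a), e (θ * φ 0 (((a : ℝ) + 1) + (n : ℝ)))‖ / N) ^ (2 ^ k) ≤
      K * (N : ℝ) ^ (-(1 / 2) : ℝ) := by
    refine hb.trans ?_
    calc _ ≤ Cq k * (2 / Real.sqrt c1 * (N : ℝ) ^ (-(1 / 2) : ℝ) +
          4 * 2 ^ k * (bk / ak) * (1 + 2 * k) ^ k * (N : ℝ) ^ (-(1 / 2) : ℝ)) := by
          gcongr
      _ = _ := by rw [hK]; ring
  set S : ℝ := ‖∑ n ∈ range (N - a), e (θ * φ 0 (((a : ℝ) + 1) + (n : ℝ)))‖ with hS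
  have hS0 : 0 ≤ S := norm_nonneg _
  have hroot : S / N ≤ K ^ ((1 : ℝ) / 2 ^ k) * (N : ℝ) ^ (-δ) := by
    have h1 : (S / N) = ((S / N) ^ (2 ^ k)) ^ ((1 : ℝ) / 2 ^ k) := by
      rw [← Real.rpow_natCast, ← Real.rpow_mul (by positivity)]
      push_cast
      rw [mul_one_div_cancel (by positivity), Real.rpow_one]
    rw [h1]
    calc _ ≤ (K * (N : ℝ) ^ (-(1 / 2) : ℝ)) ^ ((1 : ℝ) / 2 ^ k) := by gcongr
      _ = K ^ ((1 : ℝ) / 2 ^ k) * (N : ℝ) ^ (-(1 / 2) * (1 / 2 ^ k) : ℝ) := by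
          rw [Real.mul_rpow hK0.le (by positivity), ← Real.rpow_mul (by positivity)]
      _ = _ := by
          congr 2
          rw [hδ]
          field_simp
  rw [div_le_iff₀ hNpos] at hroot
  calc S ≤ K ^ ((1 : ℝ) / 2 ^ k) * (N : ℝ) ^ (-δ) * N := hroot
    _ = K ^ ((1 : ℝ) / 2 ^ k) * (N : ℝ) ^ (1 - δ) := by
      rw [mul_assoc, sub_eq_neg_add, Real.rpow_add hNpos, Real.rpow_one]

/-- the regime of low frequencies -/
theorem low {α κ ε : ℝ} (hα0 : 0 < α) (hα1 : α < 1) (hκ : 0 ≤ κ) (hε : 0 < ε) (N : ℕ) (hN : 1 ≤ N)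
    (hκN : κ ≤ Real.pi * ε * (1 - α) * N) :
    ‖∑ n ∈ range (N - ⌊ε * N⌋₊), e (α * (((⌊ε * N⌋₊ : ℝ) + 1) + (n : ℝ)) +
      κ / (2 * Real.pi) * Real.log (((⌊ε * N⌋₊ : ℝ) + 1) + (n : ℝ)))‖ ≤ 2 / min α ((1 - α) / 2) := by
  have hπ := Real.pi_pos
  have hN' : (1 : ℝ) ≤ N := by exact_mod_cast hN
  set u : ℝ := (⌊ε * N⌋₊ : ℝ) + 1 with hu
  have hu1 : ε * N ≤ u := (Nat.lt_floor_add_one _).le
  have hu0 : 0 < u := by rw [hu]; positivity
  have hθ : 0 < min α ((1 - α) / 2) := lt_min hα0 (by linarith)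
  have hd : ∀ n : ℕ, Real.log (u + ((n + 1 : ℕ) : ℝ)) - Real.log (u + (n : ℝ)) =
      Real.log (1 + 1 / (u + n)) := by
    intro n
    have h1 : 0 < u + (n : ℝ) := by positivity
    rw [← Real.log_div (by positivity) h1.ne']
    congr 1
    push_cast
    field_simp
    ring
  apply kusmin_landau_anti (fun n : ℕ => α * (u + (n : ℝ)) + κ / (2 * Real.pi) * Real.log (u + (n : ℝ))) _ hθ
  · intro n _
    have h1 : 0 < u + (n : ℝ) := by positivity
    have h2 : 0 ≤ Real.log (1 + 1 / (u + n)) := Real.log_nonneg (by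
      have : 0 ≤ 1 / (u + (n : ℝ)) := by positivity
      linarith)
    have h3 : 0 ≤ κ / (2 * Real.pi) * Real.log (1 + 1 / (u + n)) := by positivity
    have h4 := hd n
    have h5 : α * (u + ((n + 1 : ℕ) : ℝ)) + κ / (2 * Real.pi) * Real.log (u + ((n + 1 : ℕ) : ℝ)) -
        (α * (u + (n : ℝ)) + κ / (2 * Real.pi) * Real.log (u + (n : ℝ))) =
        α + κ / (2 * Real.pi) * Real.log (1 + 1 / (u + n)) := by
      rw [← h4]
      push_cast
      ring
    rw [h5]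
    have := min_le_left α ((1 - α) / 2)
    linarith
  · intro n _
    have h1 : 0 < u + (n : ℝ) := by positivity
    have h2 : Real.log (1 + 1 / (u + n)) ≤ 1 / (u + n) := by
      have := Real.log_le_sub_one_of_pos (x := 1 + 1 / (u + (n : ℝ))) (by positivity)
      linarith
    have h3 : κ / (2 * Real.pi) * Real.log (1 + 1 / (u + n)) ≤ (1 - α) / 2 := by
      calc κ / (2 * Real.pi) * Real.log (1 + 1 / (u + n)) ≤ κ / (2 * Real.pi) * (1 / (u + n)) := by gcongr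
        _ ≤ κ / (2 * Real.pi) * (1 / (ε * N)) := by
          have : ε * N ≤ u + n := by
            have : (0 : ℝ) ≤ n := Nat.cast_nonneg n
            linarith
          gcongr
        _ ≤ (Real.pi * ε * (1 - α) * N) / (2 * Real.pi) * (1 / (ε * N)) := by gcongr
        _ = (1 - α) / 2 := by
          field_simp
    have h4 := hd n
    have h5 : α * (u + ((n + 1 : ℕ) : ℝ)) + κ / (2 * Real.pi) * Real.log (u + ((n + 1 : ℕ) : ℝ)) -
        (α * (u + (n : ℝ)) + κ / (2 * Real.pi) * Real.log (u + (n : ℝ))) =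
        α + κ / (2 * Real.pi) * Real.log (1 + 1 / (u + n)) := by
      rw [← h4]
      push_cast
      ring
    rw [h5]
    have := min_le_right α ((1 - α) / 2)
    linarith
  · intro n _
    have h4 := hd n
    have h5 := hd (n + 1)
    rw [show n + 1 + 1 = n + 2 by ring] at h5
    have h6 : Real.log (1 + 1 / (u + ((n + 1 : ℕ) : ℝ))) ≤ Real.log (1 + 1 / (u + (n : ℝ))) := by
      have h7 : (n : ℝ) ≤ ((n + 1 : ℕ) : ℝ) := by push_cast; linarith
      gcongr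
    have h8 : κ / (2 * Real.pi) * Real.log (1 + 1 / (u + ((n + 1 : ℕ) : ℝ))) ≤
        κ / (2 * Real.pi) * Real.log (1 + 1 / (u + (n : ℝ))) := by gcongr
    rw [← h4, ← h5] at h8
    push_cast at h8 ⊢
    linarith

/-- the sum in terms of `e` -/
theorem sum_e (α κ : ℝ) (a N : ℕ) :
    ∑ n ∈ Ioc a N, (Complex.exp (((2 * Real.pi * α * n : ℝ) : ℂ) * Complex.I) - 0) *
        Complex.exp (((κ * Real.log n : ℝ) : ℂ) * Complex.I) =
      ∑ n ∈ range (N - a), e (α * (((a : ℝ) + 1) + (n : ℝ)) +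
        κ / (2 * Real.pi) * Real.log (((a : ℝ) + 1) + (n : ℝ))) := by
  rw [← Finset.Ico_add_one_add_one_eq_Ioc, Finset.sum_Ico_eq_sum_range,
    show N + 1 - (a + 1) = N - a by omega]
  refine sum_congr rfl fun n _ => ?_
  rw [sub_zero, ← Complex.exp_add]
  unfold Pool.Agent.H469R2.NK.e
  rw [← add_mul]
  congr 2
  have hπ : (Real.pi : ℂ) ≠ 0 := by exact_mod_cast Real.pi_ne_zero
  push_cast
  field_simp

/-- nonnegative frequencies, `0 < α < 1` -/
theorem pos_case {α : ℝ} (hα0 : 0 < α) (hα1 : α < 1) (ε : ℝ) (Q : ℕ) (hε : 0 < ε) (hε1 : ε < 1) :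
    ∃ δ : ℝ, 0 < δ ∧ δ ≤ 1 ∧ ∃ C : ℝ, 0 < C ∧ ∀ᶠ N : ℕ in atTop, ∀ κ : ℝ, 0 ≤ κ → κ ≤ (N : ℝ) ^ Q →
    ‖∑ n ∈ Ioc ⌊ε * N⌋₊ N, (Complex.exp (((2 * Real.pi * α * n : ℝ) : ℂ) * Complex.I) - 0) *
      Complex.exp (((κ * Real.log n : ℝ) : ℂ) * Complex.I)‖ ≤ C * (N : ℝ) ^ (1 - δ) := by
  have hπ := Real.pi_pos
  have h1α : 0 < 1 - α := by linarith
  set k : ℕ := 2 * Q + 2 with hk
  set c0 : ℝ := Real.pi * ε * (1 - α) with hc0
  have hc0' : 0 < c0 := by positivity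
  set ak : ℝ := (k.factorial : ℝ) / 2 ^ (k + 1) with hak
  set b1 : ℝ := (k.factorial : ℝ) / ε ^ (k + 1) with hb1
  set bk : ℝ := max b1 (Real.pi / c0) with hbk
  have hak' : 0 < ak := by rw [hak]; positivity
  have hb1' : 0 < b1 := by rw [hb1]; positivity
  have hbk' : 0 < bk := lt_of_lt_of_le hb1' (le_max_left _ _)
  set K : ℝ := (Cq k * (2 / Real.sqrt (min 1 (Real.pi / bk)) + 4 * 2 ^ k * (bk / ak) * (1 + 2 * k) ^ k)) ^
        ((1 : ℝ) / 2 ^ k) with hK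
  have hCq := Cq_pos k
  have hK0 : 0 < K := by
    have : 0 < min 1 (Real.pi / bk) := by positivity
    rw [hK]
    positivity
  set δ : ℝ := 1 / (2 * 2 ^ k) with hδ
  have hδ0 : 0 < δ := by rw [hδ]; positivity
  have hδ1 : δ ≤ 1 := by
    rw [hδ, div_le_one (by positivity)]
    have : (1 : ℝ) ≤ 2 ^ k := one_le_pow₀ (by norm_num)
    linarith
  have hm : 0 < min α ((1 - α) / 2) := lt_min hα0 (by linarith)
  refine ⟨δ, hδ0, hδ1, 2 / min α ((1 - α) / 2) + K, by positivity, ?_⟩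
  have hev : ∀ᶠ N : ℕ in atTop, bk / Real.pi ≤ N ∧ (1 : ℝ) ≤ N := by
    have h : ∀ x : ℝ, ∀ᶠ N : ℕ in atTop, x ≤ (N : ℝ) := fun x =>
      tendsto_natCast_atTop_atTop.eventually_ge_atTop x
    exact (h _).and (h _)
  filter_upwards [hev] with N hN κ hκ hκQ
  obtain ⟨hN3, hN4⟩ := hN
  rw [div_le_iff₀ hπ] at hN3
  have hN4' : 1 ≤ N := by exact_mod_cast hN4
  have hNpos : (0 : ℝ) < N := by linarith
  rw [sum_e]
  have hNδ : 1 ≤ (N : ℝ) ^ (1 - δ) := Real.one_le_rpow hN4 (by linarith)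
  rcases le_or_gt κ (c0 * N) with hcase | hcase
  · refine (low hα0 hα1 hκ hε N hN4' hcase).trans ?_
    have : 0 < 2 / min α ((1 - α) / 2) := by positivity
    nlinarith
  · have hκ0 : 0 < κ := lt_of_le_of_lt (by positivity) hcase
    have hy := lg_hy (2 * Real.pi * α / κ) Q hε hNpos
    have hy2 : Hy k (ε * N) (2 * N) (ak / (N : ℝ) ^ (k + 1)) (bk / (N : ℝ) ^ (k + 1))
        (lg (2 * Real.pi * α / κ)) := by
      refine ⟨hy.der, hy.lo, fun t ht => (hy.hi t ht).trans ?_, hy.dec⟩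
      have : b1 ≤ bk := le_max_left _ _
      rw [← hk, ← hb1]
      gcongr
    have hκN : Real.pi * N ≤ bk * κ := by
      calc Real.pi * N = Real.pi / c0 * (c0 * N) := by field_simp
        _ ≤ bk * κ := by
          have : Real.pi / c0 ≤ bk := le_max_right _ _
          gcongr
    have h1 := core hk hε hε1 hak' hbk' N _ hy2 κ hκ0 hκQ hκN hN3 hN4
    have h2 : ∀ x : ℝ, κ / (2 * Real.pi) * lg (2 * Real.pi * α / κ) 0 x =
        α * x + κ / (2 * Real.pi) * Real.log x := by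
      intro x
      change κ / (2 * Real.pi) * (Real.log x + 2 * Real.pi * α / κ * x) = _
      field_simp
      ring
    simp only [h2] at h1
    rw [← hK] at h1
    refine h1.trans ?_
    have : 0 < 2 / min α ((1 - α) / 2) := by positivity
    nlinarith

theorem conj_case (α κ : ℝ) (s : Finset ℕ) :
    ‖∑ n ∈ s, (Complex.exp (((2 * Real.pi * α * n : ℝ) : ℂ) * Complex.I) - 0) *
      Complex.exp (((κ * Real.log n : ℝ) : ℂ) * Complex.I)‖ =
    ‖∑ n ∈ s, (Complex.exp (((2 * Real.pi * (-α) * n : ℝ) : ℂ) * Complex.I) - 0) *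
      Complex.exp (((-κ * Real.log n : ℝ) : ℂ) * Complex.I)‖ := by
  rw [← Complex.norm_conj, map_sum]
  congr 1
  refine sum_congr rfl fun n _ => ?_
  rw [sub_zero, sub_zero, map_mul, ← Complex.exp_conj, ← Complex.exp_conj, map_mul, map_mul,
    Complex.conj_ofReal, Complex.conj_ofReal, Complex.conj_I]
  congr 2
  · push_cast
    ring
  · push_cast
    ring

theorem fract_case (α κ : ℝ) (s : Finset ℕ) :
    ∑ n ∈ s, (Complex.exp (((2 * Real.pi * α * n : ℝ) : ℂ) * Complex.I) - 0) *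
      Complex.exp (((κ * Real.log n : ℝ) : ℂ) * Complex.I) =
    ∑ n ∈ s, (Complex.exp (((2 * Real.pi * Int.fract α * n : ℝ) : ℂ) * Complex.I) - 0) *
      Complex.exp (((κ * Real.log n : ℝ) : ℂ) * Complex.I) := by
  refine sum_congr rfl fun n _ => ?_
  congr 2
  have h1 : α = Int.fract α + ⌊α⌋ := (Int.fract_add_floor α).symm
  have h2 : ((2 * Real.pi * α * n : ℝ) : ℂ) * Complex.I =
      ((2 * Real.pi * Int.fract α * n : ℝ) : ℂ) * Complex.I + ((⌊α⌋ * (n : ℤ) : ℤ) : ℂ) * (2 * Real.pi * Complex.I) := by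
    conv_lhs => rw [h1]
    push_cast
    ring
  rw [h2, Complex.exp_add, Complex.exp_int_mul_two_pi_mul_I, mul_one]

theorem fract_pos {α : ℝ} (h : ∀ k : ℤ, α ≠ k) : 0 < Int.fract α := by
  rcases (Int.fract_nonneg α).lt_or_eq with h1 | h1
  · exact h1
  · exfalso
    exact h ⌊α⌋ (by have := Int.fract_add_floor α; rw [← h1] at this; linarith)

theorem pow_mono {N : ℕ} (hN : 1 ≤ N) {δ δ' C C' : ℝ} (h : δ' ≤ δ) (hC : C ≤ C') (hC0 : 0 ≤ C) :
    C * (N : ℝ) ^ (1 - δ) ≤ C' * (N : ℝ) ^ (1 - δ') := by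
  have hN' : (1 : ℝ) ≤ N := by exact_mod_cast hN
  have h1 : (N : ℝ) ^ (1 - δ) ≤ (N : ℝ) ^ (1 - δ') := Real.rpow_le_rpow_of_exponent_le hN' (by linarith)
  have h2 : 0 ≤ (N : ℝ) ^ (1 - δ) := by positivity
  exact mul_le_mul hC h1 h2 (hC0.trans hC)

/-- **Power saving for exponentials.** -/
theorem pse : S_PSE := by
  intro α hα ε Q hε
  rcases le_or_gt 1 ε with hε1 | hε1
  · refine ⟨1, one_pos, 1, one_pos, Eventually.of_forall fun N κ _ => ?_⟩
    have h1 : N ≤ ⌊ε * N⌋₊ := by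
      apply Nat.le_floor
      nlinarith [(Nat.cast_nonneg N : (0 : ℝ) ≤ N)]
    rw [Ioc_eq_empty_of_le h1]
    simp only [sum_empty, norm_zero]
    positivity
  have hα' : ∀ k : ℤ, -α ≠ k := by
    intro k hk
    exact hα (-k) (by push_cast; linarith)
  obtain ⟨δ1, hδ1, _, C1, hC1, h1⟩ := pos_case (fract_pos hα) (Int.fract_lt_one α) ε Q hε hε1
  obtain ⟨δ2, hδ2, _, C2, hC2, h2⟩ := pos_case (fract_pos hα') (Int.fract_lt_one (-α)) ε Q hε hε1
  refine ⟨min δ1 δ2, lt_min hδ1 hδ2, C1 + C2, by positivity, ?_⟩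
  filter_upwards [h1, h2, eventually_ge_atTop 1] with N hN1 hN2 hN κ hκ
  rcases le_or_gt 0 κ with h0 | h0
  · rw [fract_case]
    rw [abs_of_nonneg h0] at hκ
    exact (hN1 κ h0 hκ).trans (pow_mono hN (min_le_left _ _) (by linarith) hC1.le)
  · rw [conj_case, fract_case]
    rw [abs_of_neg h0] at hκ
    exact (hN2 (-κ) (by linarith) hκ).trans (pow_mono hN (min_le_right _ _) (by linarith) hC2.le)

theorem psav_add {B₁ B₂ : ℕ → ℂ} {b₁ b₂ : ℂ} (h₁ : PSav B₁ b₁) (h₂ : PSav B₂ b₂) :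
    PSav (fun n => B₁ n + B₂ n) (b₁ + b₂) := by
  intro ε Q hε
  obtain ⟨δ1, hδ1, C1, hC1, h1⟩ := h₁ ε Q hε
  obtain ⟨δ2, hδ2, C2, hC2, h2⟩ := h₂ ε Q hε
  refine ⟨min δ1 δ2, lt_min hδ1 hδ2, C1 + C2, by positivity, ?_⟩
  filter_upwards [h1, h2, eventually_ge_atTop 1] with N hN1 hN2 hN κ hκ
  have e1 : ∑ n ∈ Ioc ⌊ε * N⌋₊ N, (B₁ n + B₂ n - (b₁ + b₂)) *
      Complex.exp (((κ * Real.log n : ℝ) : ℂ) * Complex.I) =
      ∑ n ∈ Ioc ⌊ε * N⌋₊ N, (B₁ n - b₁) * Complex.exp (((κ * Real.log n : ℝ) : ℂ) * Complex.I) +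
      ∑ n ∈ Ioc ⌊ε * N⌋₊ N, (B₂ n - b₂) * Complex.exp (((κ * Real.log n : ℝ) : ℂ) * Complex.I) := by
    rw [← sum_add_distrib]
    refine sum_congr rfl fun n _ => ?_
    ring
  rw [e1]
  refine (norm_add_le _ _).trans ?_
  have h3 := (hN1 κ hκ).trans (pow_mono hN (min_le_left δ1 δ2) le_rfl hC1.le)
  have h4 := (hN2 κ hκ).trans (pow_mono hN (min_le_right δ1 δ2) le_rfl hC2.le)
  rw [add_mul]
  exact add_le_add h3 h4

theorem psav_const (b : ℂ) : PSav (fun _ => b) b := by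
  intro ε Q hε
  refine ⟨1, one_pos, 1, one_pos, Eventually.of_forall fun N κ _ => ?_⟩
  simp only [sub_self, zero_mul, sum_const_zero, norm_zero]
  positivity

theorem psav_sum (q m : ℕ) (hm : m < q) :
    PSav (fun n => ∑ j ∈ range (m + 1), Complex.exp (((2 * Real.pi * ((j : ℝ) / q) * n : ℝ) : ℂ) * Complex.I)) 1 := by
  induction m with
  | zero =>
    have h1 := psav_const 1
    convert h1 using 2 with n
    simp
  | succ m ih =>
    have h1 := ih (by omega)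
    have h2 := pse (((m + 1 : ℕ) : ℝ) / q) (by
      intro k hk
      have hq : (0 : ℝ) < q := by
        have : 0 < q := by omega
        exact_mod_cast this
      rw [div_eq_iff hq.ne'] at hk
      have h3 : ((m + 1 : ℕ) : ℤ) = k * q := by exact_mod_cast hk
      have h4 : (0 : ℤ) < k * q := by rw [← h3]; positivity
      have hq' : (0 : ℤ) < q := by exact_mod_cast hq
      have h5 : 0 < k := by
        by_contra hneg
        have : k * (q : ℤ) ≤ 0 := mul_nonpos_of_nonpos_of_nonneg (not_lt.1 hneg) hq'.le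
        linarith
      have h6 : (q : ℤ) ≤ k * q := by nlinarith
      rw [← h3] at h6
      have : q ≤ m + 1 := by exact_mod_cast h6
      omega)
    have h3 := psav_add h1 h2
    rw [add_zero] at h3
    convert h3 using 2 with n
    rw [sum_range_succ]

/-- **Power saving for multiples of `q`.** -/
theorem psq : S_PSQ := by
  intro q hq
  have h1 := psav_sum q (q - 1) (by omega)
  rw [show q - 1 + 1 = q by omega] at h1
  convert h1 using 2 with n
  have hq0 : (q : ℂ) ≠ 0 := by exact_mod_cast (by omega : q ≠ 0)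
  set z : ℂ := Complex.exp (2 * Real.pi * Complex.I * (n / q)) with hz
  have h2 : ∀ j : ℕ, Complex.exp (((2 * Real.pi * ((j : ℝ) / q) * n : ℝ) : ℂ) * Complex.I) = z ^ j := by
    intro j
    rw [hz, ← Complex.exp_nat_mul]
    congr 1
    push_cast
    ring
  simp only [h2]
  by_cases hqn : q ∣ n
  · rw [if_pos hqn]
    obtain ⟨m, rfl⟩ := hqn
    have h3 : z = 1 := by
      rw [hz, Complex.exp_eq_one_iff]
      refine ⟨m, ?_⟩
      push_cast
      field_simp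
    rw [h3]
    simp
  · rw [if_neg hqn]
    have h3 : z ≠ 1 := by
      intro h
      rw [hz, Complex.exp_eq_one_iff] at h
      obtain ⟨m, hm⟩ := h
      have hπ : (2 * Real.pi * Complex.I : ℂ) ≠ 0 := Complex.two_pi_I_ne_zero
      have h4 : (n : ℂ) / q = m := by
        apply mul_left_cancel₀ hπ
        rw [hm]
        ring
      rw [div_eq_iff hq0] at h4
      have h5 : (n : ℤ) = m * q := by exact_mod_cast h4
      apply hqn
      have : (q : ℤ) ∣ n := ⟨m, by rw [h5]; ring⟩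
      exact_mod_cast this
    have h4 : z ^ q = 1 := by
      rw [hz, ← Complex.exp_nat_mul, Complex.exp_eq_one_iff]
      refine ⟨n, ?_⟩
      push_cast
      field_simp
    rw [geom_sum_eq h3, h4, sub_self, zero_div]

end Pool.Agent.Y220.MC.PS

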