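import Mathlib
import Pool.Agent.Y957.MC.Spec

/-!
# Project MC (helper957): coboundaries at Beatty times are nice
-/

set_option autoImplicit false

namespace Pool.Agent.Y220.MC

open MeasureTheory Filter Finset Pool.Agent.Y957.MC

universe u

theorem ii_of_bdd {f : ℝ → ℂ} (hf : Measurable f) {B : ℝ} (hB : ∀ s, ‖f s‖ ≤ B) (a b : ℝ) :
    IntervalIntegrable f volume a b :=
  (intervalIntegrable_const (c := B)).mono_fun' hf.aestronglyMeasurable (ae_of_all _ hB)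

theorem prim_bound (a : ℕ → ℂ) (A B : ℝ) (hA : ∀ n, ‖∑ k ∈ range n, a k‖ ≤ A)
    (hB : ∀ k, ‖a k‖ ≤ B) (v : ℝ) (hv : 0 ≤ v) : ‖∫ s in (0 : ℝ)..v, a ⌊s⌋₊‖ ≤ A + B := by
  have hm : Measurable fun s : ℝ => a ⌊s⌋₊ := (measurable_of_countable a).comp Nat.measurable_floor
  have hii : ∀ c d : ℝ, IntervalIntegrable (fun s : ℝ => a ⌊s⌋₊) volume c d :=
    fun c d => ii_of_bdd hm (fun s => hB _) c d
  have hB0 : 0 ≤ B := (norm_nonneg _).trans (hB 0)
  have h1 : ∫ s in (0 : ℝ)..(⌊v⌋₊ : ℝ), a ⌊s⌋₊ = ∑ k ∈ range ⌊v⌋₊, a k := by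
    have h2 := intervalIntegral.sum_integral_adjacent_intervals (μ := volume)
      (f := fun s : ℝ => a ⌊s⌋₊) (a := fun k : ℕ => (k : ℝ)) (n := ⌊v⌋₊) fun k _ => hii _ _
    rw [Nat.cast_zero] at h2
    rw [← h2]
    refine Finset.sum_congr rfl fun k _ => ?_
    have h3 : ∫ s in (k : ℝ)..((k + 1 : ℕ) : ℝ), a ⌊s⌋₊ = ∫ s in (k : ℝ)..((k + 1 : ℕ) : ℝ), a k := by
      refine intervalIntegral.integral_congr_Ioo_of_le (by push_cast; linarith) fun s hs => ?_
      have h4 : ⌊s⌋₊ = k := by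
        rw [Nat.floor_eq_iff ((Nat.cast_nonneg k).trans hs.1.le)]
        exact ⟨hs.1.le, by have := hs.2; push_cast at this; exact this⟩
      show a ⌊s⌋₊ = a k
      rw [h4]
    rw [h3, intervalIntegral.integral_const]
    push_cast
    rw [add_sub_cancel_left, one_smul]
  have h2 : ∫ s in (0 : ℝ)..v, a ⌊s⌋₊ = ∑ k ∈ range ⌊v⌋₊, a k + ∫ s in (⌊v⌋₊ : ℝ)..v, a ⌊s⌋₊ := by
    rw [← h1, intervalIntegral.integral_add_adjacent_intervals (hii _ _) (hii _ _)]
  rw [h2]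
  refine (norm_add_le _ _).trans (add_le_add (hA _) ?_)
  refine (intervalIntegral.norm_integral_le_of_norm_le_const fun s _ => hB _).trans ?_
  have h3 : |v - (⌊v⌋₊ : ℝ)| ≤ 1 := by
    rw [abs_of_nonneg (by linarith [Nat.floor_le hv])]
    linarith [Nat.lt_floor_add_one v]
  calc B * |v - (⌊v⌋₊ : ℝ)| ≤ B * 1 := mul_le_mul_of_nonneg_left h3 hB0
    _ = B := mul_one B

theorem mod_floor (a : ℕ → ℂ) (ha : ∀ k, ‖a k‖ ≤ 1) (Λ : ℝ) (hΛ : 1 ≤ Λ) (M : ℝ) (hM : 1 ≤ M) :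
    Mod Λ (fun s => a ⌊s⌋₊) (2 * Real.exp (Λ + 1)) M := by
  intro h hh hh1
  have hM0 : 0 ≤ M := by linarith
  set q : ℝ → ℝ := fun s => (⌊M * Real.exp s⌋₊ : ℝ) with hq
  have hqm : Monotone q := by
    intro s t hst
    have h1 : M * Real.exp s ≤ M * Real.exp t :=
      mul_le_mul_of_nonneg_left (Real.exp_le_exp.2 hst) hM0
    exact Nat.cast_le.2 (Nat.floor_le_floor h1)
  have hq0 : ∀ s, 0 ≤ q s := fun s => Nat.cast_nonneg _
  have hqi : ∀ c d : ℝ, IntervalIntegrable q volume c d := fun c d => hqm.intervalIntegrable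
  have hqm2 : Monotone fun s => q (s + h) := fun s t hst => hqm (by linarith)
  have hqi2 : ∀ c d : ℝ, IntervalIntegrable (fun s => q (s + h)) volume c d :=
    fun c d => hqm2.intervalIntegrable
  have hpt : ∀ s : ℝ, ‖a ⌊M * Real.exp (s + h)⌋₊ - a ⌊M * Real.exp s⌋₊‖ ≤ 2 * (q (s + h) - q s) := by
    intro s
    have h1 : q s ≤ q (s + h) := hqm (by linarith)
    by_cases he : ⌊M * Real.exp (s + h)⌋₊ = ⌊M * Real.exp s⌋₊
    · rw [he, sub_self, norm_zero]
      linarith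
    · have h2 : ⌊M * Real.exp s⌋₊ + 1 ≤ ⌊M * Real.exp (s + h)⌋₊ := by
        have h3 : ⌊M * Real.exp s⌋₊ ≤ ⌊M * Real.exp (s + h)⌋₊ := Nat.cast_le.1 h1
        omega
      have h3 : q s + 1 ≤ q (s + h) := by
        have : ((⌊M * Real.exp s⌋₊ + 1 : ℕ) : ℝ) ≤ (⌊M * Real.exp (s + h)⌋₊ : ℝ) := Nat.cast_le.2 h2
        push_cast at this
        exact this
      refine (norm_sub_le _ _).trans ?_
      have := ha ⌊M * Real.exp (s + h)⌋₊
      have := ha ⌊M * Real.exp s⌋₊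
      linarith
  have hΛ0 : (0 : ℝ) ≤ Λ := by linarith
  have h1 : ∫ s in (0 : ℝ)..Λ, ‖a ⌊M * Real.exp (s + h)⌋₊ - a ⌊M * Real.exp s⌋₊‖ ≤
      ∫ s in (0 : ℝ)..Λ, 2 * (q (s + h) - q s) := by
    rw [intervalIntegral.integral_of_le hΛ0, intervalIntegral.integral_of_le hΛ0]
    refine integral_mono_of_nonneg (ae_of_all _ fun s => norm_nonneg _) ?_ (ae_of_all _ hpt)
    exact (((hqi2 0 Λ).sub (hqi 0 Λ)).const_mul 2).1
  have h2 : ∫ s in (0 : ℝ)..Λ, 2 * (q (s + h) - q s) =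
      2 * ((∫ s in Λ..(Λ + h), q s) - ∫ s in (0 : ℝ)..h, q s) := by
    rw [intervalIntegral.integral_const_mul, intervalIntegral.integral_sub (hqi2 0 Λ) (hqi 0 Λ),
      intervalIntegral.integral_comp_add_right q h, zero_add]
    congr 1
    have h3 := intervalIntegral.integral_add_adjacent_intervals (hqi 0 h) (hqi h (Λ + h))
    have h4 := intervalIntegral.integral_add_adjacent_intervals (hqi 0 Λ) (hqi Λ (Λ + h))
    linarith
  have h3 : ∫ s in Λ..(Λ + h), q s ≤ h * (M * Real.exp (Λ + 1)) := by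
    have h4 : ∫ s in Λ..(Λ + h), q s ≤ ∫ _s in Λ..(Λ + h), M * Real.exp (Λ + 1) := by
      refine intervalIntegral.integral_mono_on (by linarith) (hqi _ _) intervalIntegrable_const
        fun s hs => ?_
      refine (Nat.floor_le (by positivity)).trans ?_
      exact mul_le_mul_of_nonneg_left (Real.exp_le_exp.2 (by linarith [hs.2])) hM0
    rw [intervalIntegral.integral_const, add_sub_cancel_left, smul_eq_mul] at h4
    exact h4
  have h5 : 0 ≤ ∫ s in (0 : ℝ)..h, q s := intervalIntegral.integral_nonneg hh.le fun s _ => hq0 s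
  show ∫ s in (0 : ℝ)..Λ, ‖a ⌊M * Real.exp (s + h)⌋₊ - a ⌊M * Real.exp s⌋₊‖ ≤
    2 * Real.exp (Λ + 1) * M * h
  refine h1.trans ?_
  rw [h2]
  nlinarith

theorem bty1 (h : S_NICE.{u}) : S_BTY1.{u} := by
  intro p hp X _ μ _ T g hT hg hC m hm
  obtain ⟨C₀, hC₀⟩ := hC
  obtain ⟨C, hCd⟩ : ∃ C : ℝ, C = max C₀ 1 := ⟨_, rfl⟩
  have hC1 : 1 ≤ C := by rw [hCd]; exact le_max_right _ _
  have hgC : ∀ x, |g x| ≤ C := fun x => (hC₀ x).trans (by rw [hCd]; exact le_max_left _ _)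
  have hm0 : (0 : ℝ) < m := by exact_mod_cast hm
  set φ : X → ℕ → ℝ := fun x k =>
    g (T^[k] x) - (1 / (m : ℝ)) * ∑ i ∈ range m, g (T^[k + i] x) with hφ
  have havg : ∀ (x : X) (k : ℕ), |(1 / (m : ℝ)) * ∑ i ∈ range m, g (T^[k + i] x)| ≤ C := by
    intro x k
    rw [abs_mul, abs_of_nonneg (by positivity)]
    have h1 : |∑ i ∈ range m, g (T^[k + i] x)| ≤ m * C := by
      refine (Finset.abs_sum_le_sum_abs _ _).trans ?_
      refine (Finset.sum_le_sum fun i _ => hgC _).trans ?_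
      rw [Finset.sum_const, Finset.card_range, nsmul_eq_mul]
    calc 1 / (m : ℝ) * |∑ i ∈ range m, g (T^[k + i] x)| ≤ 1 / (m : ℝ) * (m * C) :=
          mul_le_mul_of_nonneg_left h1 (by positivity)
      _ = C := by field_simp
  have hφC : ∀ x k, |φ x k| ≤ 2 * C := by
    intro x k
    refine (abs_sub _ _).trans ?_
    linarith [hgC (T^[k] x), havg x k]
  -- the coboundary
  set Γ : X → ℕ → ℝ := fun x k => (1 / (m : ℝ)) * ∑ i ∈ range m, ∑ j ∈ range i, g (T^[k + j] x)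
    with hΓ
  have hΓC : ∀ x k, |Γ x k| ≤ m * C := by
    intro x k
    show |(1 / (m : ℝ)) * ∑ i ∈ range m, ∑ j ∈ range i, g (T^[k + j] x)| ≤ m * C
    rw [abs_mul, abs_of_nonneg (by positivity)]
    have h1 : |∑ i ∈ range m, ∑ j ∈ range i, g (T^[k + j] x)| ≤ m * (m * C) := by
      refine (Finset.abs_sum_le_sum_abs _ _).trans ?_
      have h2 : ∀ i ∈ range m, |∑ j ∈ range i, g (T^[k + j] x)| ≤ m * C := by
        intro i hi
        refine (Finset.abs_sum_le_sum_abs _ _).trans ?_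
        refine (Finset.sum_le_sum fun i _ => hgC _).trans ?_
        rw [Finset.sum_const, Finset.card_range, nsmul_eq_mul]
        have : (i : ℝ) ≤ m := by exact_mod_cast (Finset.mem_range.1 hi).le
        exact mul_le_mul_of_nonneg_right this (by linarith)
      refine (Finset.sum_le_sum h2).trans ?_
      rw [Finset.sum_const, Finset.card_range, nsmul_eq_mul]
    calc 1 / (m : ℝ) * |∑ i ∈ range m, ∑ j ∈ range i, g (T^[k + j] x)|
        ≤ 1 / (m : ℝ) * (m * (m * C)) := mul_le_mul_of_nonneg_left h1 (by positivity)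
      _ = m * C := by field_simp
  have hcob : ∀ x k, φ x k = Γ x k - Γ x (k + 1) := by
    intro x k
    show g (T^[k] x) - (1 / (m : ℝ)) * ∑ i ∈ range m, g (T^[k + i] x) =
      (1 / (m : ℝ)) * ∑ i ∈ range m, ∑ j ∈ range i, g (T^[k + j] x) -
      (1 / (m : ℝ)) * ∑ i ∈ range m, ∑ j ∈ range i, g (T^[k + 1 + j] x)
    rw [← mul_sub, ← Finset.sum_sub_distrib]
    have h1 : ∀ i ∈ range m, ∑ j ∈ range i, g (T^[k + j] x) - ∑ j ∈ range i, g (T^[k + 1 + j] x) =
        g (T^[k] x) - g (T^[k + i] x) := by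
      intro i _
      rw [← Finset.sum_sub_distrib]
      have h2 := Finset.sum_range_sub' (fun j => g (T^[k + j] x)) i
      rw [add_zero] at h2
      rw [← h2]
      refine Finset.sum_congr rfl fun j _ => ?_
      rw [show k + 1 + j = k + (j + 1) by ring]
    rw [Finset.sum_congr rfl h1, Finset.sum_sub_distrib, Finset.sum_const, Finset.card_range,
      nsmul_eq_mul, mul_sub]
    congr 1
    field_simp
  have hsum : ∀ x n, |∑ k ∈ range n, φ x k| ≤ 2 * (m * C) := by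
    intro x n
    rw [Finset.sum_congr rfl fun k _ => hcob x k, Finset.sum_range_sub']
    refine (abs_sub _ _).trans ?_
    linarith [hΓC x 0, hΓC x n]
  -- the family
  let a : X → ℕ → ℂ := fun x k => ((φ x k / (2 * C) : ℝ) : ℂ)
  have ha1 : ∀ x k, ‖a x k‖ ≤ 1 := by
    intro x k
    show ‖((φ x k / (2 * C) : ℝ) : ℂ)‖ ≤ 1
    rw [Complex.norm_real, Real.norm_eq_abs, abs_div, abs_of_pos (by linarith : (0 : ℝ) < 2 * C),
      div_le_one (by linarith)]
    exact hφC x k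
  have hφm : ∀ k, Measurable fun x => φ x k := by
    intro k
    show Measurable fun x => g (T^[k] x) - (1 / (m : ℝ)) * ∑ i ∈ range m, g (T^[k + i] x)
    refine (hg.comp (hT.measurable.iterate k)).sub (Measurable.const_mul ?_ _)
    exact Finset.measurable_fun_sum _ fun i _ => hg.comp (hT.measurable.iterate (k + i))
  have ham : ∀ k, Measurable fun x => a x k := fun k =>
    Complex.measurable_ofReal.comp ((hφm k).div_const _)
  have hnice : Nice μ T (fun x s => a x ⌊s⌋₊) := by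
    refine ⟨⟨hT, ?_, fun x v => ha1 x _, fun x v hv => ?_⟩, ⟨2 * (m * C) + 1, fun x v hv => ?_⟩,
      fun Λ hΛ => ⟨2 * Real.exp (Λ + 1), fun x M hM => mod_floor (a x) (ha1 x) Λ hΛ M hM⟩⟩
    · have h1 : Measurable fun q : X × ℕ => a q.1 q.2 :=
        measurable_from_prod_countable_left fun k => ham k
      exact h1.comp (measurable_fst.prodMk (Nat.measurable_floor.comp measurable_snd))
    · show a (T x) ⌊v⌋₊ = a x ⌊v + 1⌋₊
      rw [Nat.floor_add_one hv]
      show ((φ (T x) ⌊v⌋₊ / (2 * C) : ℝ) : ℂ) = ((φ x (⌊v⌋₊ + 1) / (2 * C) : ℝ) : ℂ)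
      have h1 : φ (T x) ⌊v⌋₊ = φ x (⌊v⌋₊ + 1) := by
        show g (T^[⌊v⌋₊] (T x)) - (1 / (m : ℝ)) * ∑ i ∈ range m, g (T^[⌊v⌋₊ + i] (T x)) =
          g (T^[⌊v⌋₊ + 1] x) - (1 / (m : ℝ)) * ∑ i ∈ range m, g (T^[⌊v⌋₊ + 1 + i] x)
        have h2 : ∀ k, T^[k] (T x) = T^[k + 1] x := fun k => (Function.iterate_succ_apply T k x).symm
        simp_rw [h2]
        congr 2
        refine Finset.sum_congr rfl fun i _ => ?_
        rw [show ⌊v⌋₊ + i + 1 = ⌊v⌋₊ + 1 + i by ring]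
      rw [h1]
    · refine prim_bound (a x) (2 * (m * C)) 1 (fun n => ?_) (ha1 x) v hv
      have h1 : ∑ k ∈ range n, a x k = (((∑ k ∈ range n, φ x k) / (2 * C) : ℝ) : ℂ) := by
        rw [Finset.sum_div, Complex.ofReal_sum]
      rw [h1, Complex.norm_real, Real.norm_eq_abs, abs_div,
        abs_of_pos (by linarith : (0 : ℝ) < 2 * C), div_le_iff₀ (by linarith)]
      have h2 := hsum x n
      have h3 : 0 ≤ 2 * (m * C) := by positivity
      nlinarith
  refine (h p hp X μ T _ hnice).mono fun x hx B hB => ?_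
  refine (hx B hB).mono fun b hb => ?_
  have h1 := hb.const_mul ((2 * C : ℝ) : ℂ)
  rw [mul_zero] at h1
  refine h1.congr fun N => ?_
  rw [mul_left_comm, Finset.mul_sum]
  congr 1
  refine Finset.sum_congr rfl fun n _ => ?_
  have h2 : ((2 * C : ℝ) : ℂ) * (B n * a x ⌊b * p n⌋₊) = B n * ((φ x ⌊b * p n⌋₊ : ℝ) : ℂ) := by
    rw [mul_left_comm]
    congr 1
    show ((2 * C : ℝ) : ℂ) * ((φ x ⌊b * p n⌋₊ / (2 * C) : ℝ) : ℂ) = _
    rw [← Complex.ofReal_mul]
    congr 1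
    field_simp
  exact h2

end Pool.Agent.Y220.MC
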